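import Pool.Agent.H16.GZ.Targets4

/-!
Row CNQ of the board gz: the matrices in a residue class with bounded rows.
-/

set_option autoImplicit false

namespace Pool.Agent.H1.GZ

open Pool.Agent.H34.GM Pool.Agent.H34.GZ

private lemma rowN_eq' {m : ℕ} (v : Fin m → ℝ) :
    rowN v = ‖(WithLp.toLp 2 v : EuclideanSpace ℝ (Fin m))‖ := by
  rw [EuclideanSpace.norm_eq]
  unfold rowN
  simp [sq_abs]

private lemma rowN_sub' {m : ℕ} (u v : Fin m → ℝ) : rowN (u - v) ≤ rowN u + rowN v := by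
  rw [rowN_eq', rowN_eq', rowN_eq', WithLp.toLp_sub]
  exact norm_sub_le _ _

private lemma rowN_smul' {m : ℕ} (r : ℝ) (v : Fin m → ℝ) : rowN (r • v) = |r| * rowN v := by
  rw [rowN_eq', rowN_eq', WithLp.toLp_smul, norm_smul, Real.norm_eq_abs]

private lemma rowN_nonneg' {m : ℕ} (v : Fin m → ℝ) : 0 ≤ rowN v := Real.sqrt_nonneg _

/-- CNQ -/
theorem pf_CNQ : T_CNT → T_CNQ := by
  classical
  intro hCNT m B hB
  refine ⟨2 * (1 + B), by positivity, ?_⟩
  intro q _ b n a k hq hs γ v hv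
  have hq0 : (0 : ℝ) < q := by exact_mod_cast (by omega : 0 < q)
  have hqz : (q : ℤ) ≠ 0 := by exact_mod_cast (by omega : q ≠ 0)
  obtain ⟨hc, -, -, -⟩ := hCNT m b n a k hs
  obtain ⟨S, hS⟩ : ∃ S : Set (ZM m), S = {γ' : ZM m | cQ q γ' = cQ q γ ∧
      ∀ i, rowN (vb (γ' i) b) ≤ B * rowN (vb (γ i) b)} := ⟨_, rfl⟩
  rw [← hS]
  obtain ⟨ρ, hρ⟩ : ∃ ρ : Fin m → ℝ, ρ = fun i => (1 + B) * v i / q := ⟨_, rfl⟩
  have hv0 : ∀ i, 0 ≤ v i := fun i => (rowN_nonneg' _).trans (hv i)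
  have hρ0 : ∀ i, 0 ≤ ρ i := fun i => by
    rw [hρ]
    have := hv0 i
    positivity
  obtain ⟨φ, hφ⟩ : ∃ φ : ZM m → (Fin m → Fin m → ℤ),
      φ = fun γ' i j => (γ' i j - γ i j) / (q : ℤ) := ⟨_, rfl⟩
  have hdiv : ∀ γ' ∈ S, ∀ i j, γ' i j = γ i j + q * φ γ' i j := by
    intro γ' h i j
    rw [hS] at h
    have h1 : ((γ' i j : ℤ) : ZMod q) = ((γ i j : ℤ) : ZMod q) := congrFun (congrFun h.1 i) j
    have h2 : (q : ℤ) ∣ γ' i j - γ i j := (ZMod.intCast_eq_intCast_iff_dvd_sub _ _ _).1 h1.symm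
    rw [hφ]
    have h3 := Int.mul_ediv_cancel' h2
    dsimp only
    omega
  have hfin : ∀ i, {c : Fin m → ℤ | rowN (vb c b) ≤ ρ i}.Finite := fun i => (hc (ρ i) (hρ0 i)).1
  obtain ⟨t, ht⟩ : ∃ t : Finset (Fin m → Fin m → ℤ),
      t = Fintype.piFinset fun i => (hfin i).toFinset := ⟨_, rfl⟩
  have hmap : ∀ γ' ∈ S, φ γ' ∈ (t : Set (Fin m → Fin m → ℤ)) := by
    intro γ' h
    rw [ht, Finset.mem_coe, Fintype.mem_piFinset]
    intro i
    rw [Set.Finite.mem_toFinset, Set.mem_setOf_eq]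
    have h1 : vb (φ γ' i) b = (q : ℝ)⁻¹ • (vb (γ' i) b - vb (γ i) b) := by
      unfold vb
      rw [← Matrix.sub_vecMul, ← Matrix.smul_vecMul]
      congr 1
      funext j
      rw [Pi.smul_apply, Pi.sub_apply, hdiv γ' h i j, smul_eq_mul]
      push_cast
      field_simp
      ring
    have h2 : rowN (vb (γ' i) b) ≤ B * rowN (vb (γ i) b) := by
      rw [hS] at h
      exact h.2 i
    have h3 : rowN (vb (γ' i) b - vb (γ i) b) ≤ (1 + B) * v i := by
      have h4 := rowN_sub' (vb (γ' i) b) (vb (γ i) b)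
      have h5 := mul_le_mul_of_nonneg_left (hv i) hB.le
      have h6 := hv i
      linarith
    rw [h1, rowN_smul', abs_of_pos (inv_pos.2 hq0), hρ]
    dsimp only
    rw [div_eq_inv_mul]
    exact mul_le_mul_of_nonneg_left h3 (inv_pos.2 hq0).le
  have hinj : Set.InjOn φ S := by
    intro x hx y hy hxy
    ext i j
    rw [hdiv x hx i j, hdiv y hy i j, hxy]
  refine ⟨Set.Finite.of_injOn hmap hinj (Finset.finite_toSet t), ?_⟩
  have h1 : S.ncard ≤ t.card := by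
    rw [← Set.ncard_coe_finset]
    exact Set.ncard_le_ncard_of_injOn φ hmap hinj (Finset.finite_toSet t)
  have h2 : (t.card : ℝ) = ∏ i, (({c : Fin m → ℤ | rowN (vb c b) ≤ ρ i}.ncard : ℕ) : ℝ) := by
    rw [ht, Fintype.card_piFinset]
    push_cast
    refine Finset.prod_congr rfl fun i _ => ?_
    rw [Set.ncard_eq_toFinset_card _ (hfin i)]
  have h3 : (S.ncard : ℝ) ≤ (t.card : ℝ) := by exact_mod_cast h1
  rw [h2] at h3
  refine h3.trans (Finset.prod_le_prod (fun i _ => Nat.cast_nonneg _) fun i _ => ?_)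
  refine ((hc (ρ i) (hρ0 i)).2).trans (le_of_eq ?_)
  refine Finset.prod_congr rfl fun j _ => ?_
  rw [hρ]
  have := (hs.pos j).ne'
  field_simp

end Pool.Agent.H1.GZ
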