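import Pool.Agent.H34.GZ.Targets2
import Pool.Agent.H17.GM.Basic

/-!
Integrals over the shell are at most integrals for the Lebesgue measure.
-/

set_option autoImplicit false

namespace Pool.Agent.H1.GZ

open MeasureTheory Pool.Agent.H34.GM Pool.Agent.H34.GZ Pool.Agent.H17.GM

lemma shell_le (hMSR : T_MSR) {m : ℕ} (h1m : 1 ≤ m) (g : V m → ENNReal) :
    ∫⁻ z in Shell m, g z ∂(hm m) ≤ ∫⁻ z, g z := by
  obtain ⟨-, a2, -, -, -, a6, -, -⟩ := hMSR.1 m
  have hd : Measurable (fun z : V m => ENNReal.ofReal ((|(mt z).det| ^ m)⁻¹)) :=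
    ((measurable_norm.comp a2).pow_const m).inv.ennreal_ofReal
  unfold hm
  rw [restrict_withDensity a6]
  refine (lintegral_withDensity_le_lintegral_mul _ hd g).trans ?_
  refine le_trans ?_ (setLIntegral_le_lintegral (Shell m) g)
  refine setLIntegral_mono' a6 fun z hz => ?_
  have h1 := gb_one_le_det h1m hz.1
  have h2 : (|(mt z).det| ^ m)⁻¹ ≤ 1 := inv_le_one_of_one_le₀ (one_le_pow₀ h1)
  calc ENNReal.ofReal ((|(mt z).det| ^ m)⁻¹) * g z ≤ 1 * g z := by
        gcongr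
        exact ENNReal.ofReal_le_one.2 h2
    _ = g z := one_mul _

lemma finrank_V (m : ℕ) : Module.finrank ℝ (V m) = m ^ 2 := by
  simp [V, Module.finrank_pi_fintype, sq]

/-- the decaying function with finite integral -/
noncomputable def dcf (m : ℕ) (z : V m) : ℝ := (1 + ‖z‖) ^ (-((m ^ 2 + 1 : ℕ) : ℝ))

lemma dcf_int (m : ℕ) : Integrable (dcf m) := by
  unfold dcf
  apply integrable_one_add_norm
  rw [finrank_V]
  push_cast
  linarith

lemma dcf_nonneg {m : ℕ} (z : V m) : 0 ≤ dcf m z := by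
  unfold dcf
  positivity

lemma dcf_lint (m : ℕ) :
    ∫⁻ z, ENNReal.ofReal (dcf m z) = ENNReal.ofReal (∫ z, dcf m z) :=
  (ofReal_integral_eq_lintegral_ofReal (dcf_int m)
    (Filter.Eventually.of_forall fun z => dcf_nonneg z)).symm

lemma dcf_int_nonneg (m : ℕ) : 0 ≤ ∫ z, dcf m z := integral_nonneg fun z => dcf_nonneg z

lemma dcf_smul (m : ℕ) {R : ℝ} (hR : 0 < R) :
    ∫⁻ z, ENNReal.ofReal (dcf m (R⁻¹ • z)) = ENNReal.ofReal (R ^ (m ^ 2) * ∫ z, dcf m z) := by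
  have hi : Integrable (fun z : V m => dcf m (R⁻¹ • z)) :=
    (integrable_comp_smul_iff volume (dcf m) (inv_ne_zero hR.ne')).2 (dcf_int m)
  rw [← ofReal_integral_eq_lintegral_ofReal hi
    (Filter.Eventually.of_forall fun z => dcf_nonneg _)]
  rw [Measure.integral_comp_smul volume (dcf m) R⁻¹, finrank_V, smul_eq_mul]
  congr 2
  rw [inv_pow, inv_inv, abs_of_pos (pow_pos hR _)]

/-- the lower bound of the size on the shell -/
lemma shell_low {m : ℕ} (h1m : 1 ≤ m) {z : V m} (hz : z ∈ Shell m) :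
    1 / (m.factorial : ℝ) ≤ ‖z‖ := gb_min h1m (gb_one_le_det h1m hz.1)

/-- the size of the normalised matrix -/
lemma shell_sz {m : ℕ} {z : V m} (hz : z ∈ Shell m) {t : ℝ} (ht : 0 < t) :
    (t * Real.exp 1)⁻¹ * ‖z‖ ≤ sz ((t⁻¹ * (aN (mt z))⁻¹) • mt z) := by
  have ha : 0 < aN (mt z) := lt_of_lt_of_le one_pos hz.1
  rw [gb_sz_smul, abs_of_pos (mul_pos (inv_pos.2 ht) (inv_pos.2 ha)), mul_inv]
  have h1 : sz (mt z) = ‖z‖ := rfl
  rw [h1]
  have h2 : (Real.exp 1)⁻¹ ≤ (aN (mt z))⁻¹ := inv_anti₀ ha hz.2.le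
  gcongr

end Pool.Agent.H1.GZ
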