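import Pool.Agent.H18.GZ.Targets3
import Pool.Agent.H1.GZ.Sh

/-!
Row JSH of the board gz: the volume of the large elements of the shell.
-/

set_option autoImplicit false

namespace Pool.Agent.H1.GZ

open MeasureTheory Pool.Agent.H34.GM Pool.Agent.H34.GZ Pool.Agent.H17.GM

/-- one value -/
lemma jsh_pt {c0 t w n : ℝ} {M k1 : ℕ} (hc0 : 0 < c0) (ht : 0 < t) (hn : c0 ≤ n)
    (hw : (t * Real.exp 1)⁻¹ * n ≤ w) :
    (1 + w) ^ (-((M + k1 : ℕ) : ℝ)) ≤
      (t * Real.exp 1 / (t * Real.exp 1 + c0)) ^ k1 *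
        (1 + (t * Real.exp 1)⁻¹ * n) ^ (-(M : ℝ)) := by
  have hE : 0 < t * Real.exp 1 := by positivity
  obtain ⟨ξ, hξ⟩ : ∃ ξ, ξ = (t * Real.exp 1)⁻¹ * n := ⟨_, rfl⟩
  rw [← hξ] at hw ⊢
  have hξ0 : 0 < ξ := by rw [hξ]; exact mul_pos (inv_pos.2 hE) (hc0.trans_le hn)
  have h1 : (1 + w) ^ (-((M + k1 : ℕ) : ℝ)) ≤ (1 + ξ) ^ (-((M + k1 : ℕ) : ℝ)) :=
    Real.rpow_le_rpow_of_nonpos (by linarith) (by linarith) (by
      have : (0 : ℝ) ≤ ((M + k1 : ℕ) : ℝ) := Nat.cast_nonneg _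
      linarith)
  refine h1.trans ?_
  have h2 : (-((M + k1 : ℕ) : ℝ)) = -(k1 : ℝ) + -(M : ℝ) := by push_cast; ring
  rw [h2, Real.rpow_add (by linarith)]
  apply mul_le_mul_of_nonneg_right _ (by positivity)
  rw [Real.rpow_neg (by linarith), Real.rpow_natCast, ← inv_pow]
  apply pow_le_pow_left₀ (by positivity)
  rw [inv_le_comm₀ (by linarith) (by positivity), inv_div, add_div, div_self hE.ne', hξ]
  have h3 : c0 / (t * Real.exp 1) ≤ (t * Real.exp 1)⁻¹ * n := by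
    rw [div_eq_inv_mul]
    gcongr
  linarith

/-- JSH -/
theorem pf_JSH (hMSR : T_MSR) : T_JSH := by
  intro m h1m K hK
  obtain ⟨k1, hk1⟩ := exists_nat_ge (K - (m : ℝ) ^ 2)
  obtain ⟨I, hI⟩ : ∃ I : ℝ, I = ∫ z, dcf m z := ⟨_, rfl⟩
  have hI0 : 0 ≤ I := by rw [hI]; exact dcf_int_nonneg m
  obtain ⟨c0, hc⟩ : ∃ c0 : ℝ, c0 = 1 / (m.factorial : ℝ) := ⟨_, rfl⟩
  have hc0 : 0 < c0 := by
    rw [hc]
    have : (0 : ℝ) < m.factorial := by exact_mod_cast m.factorial_pos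
    positivity
  refine ⟨m ^ 2 + 1 + k1, (Real.exp 1 / c0) ^ (K - (m : ℝ) ^ 2) * Real.exp 1 ^ (m ^ 2) * I + 1,
    by positivity, ?_⟩
  intro t ht
  have hE : 0 < t * Real.exp 1 := by positivity
  obtain ⟨x, hx⟩ : ∃ x, x = t * Real.exp 1 / (t * Real.exp 1 + c0) := ⟨_, rfl⟩
  have hx0 : 0 < x := by rw [hx]; positivity
  have hx1 : x ≤ 1 := by
    rw [hx, div_le_one (by positivity)]
    linarith
  obtain ⟨-, -, -, -, -, a6, -, -⟩ := hMSR.1 m
  calc _ ≤ ∫⁻ z in Shell m, ENNReal.ofReal (x ^ k1 * dcf m ((t * Real.exp 1)⁻¹ • z)) ∂(hm m) := by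
        refine setLIntegral_mono' a6 fun z hz => ?_
        apply ENNReal.ofReal_le_ofReal
        have h1 := jsh_pt (M := m ^ 2 + 1) (k1 := k1) hc0 ht (hc ▸ shell_low h1m hz)
          (shell_sz hz ht)
        rw [← hx] at h1
        have h2 : dcf m ((t * Real.exp 1)⁻¹ • z) =
            (1 + (t * Real.exp 1)⁻¹ * ‖z‖) ^ (-((m ^ 2 + 1 : ℕ) : ℝ)) := by
          unfold dcf
          rw [norm_smul, Real.norm_eq_abs, abs_of_pos (inv_pos.2 hE)]
        rw [h2]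
        exact h1
    _ ≤ ∫⁻ z, ENNReal.ofReal (x ^ k1 * dcf m ((t * Real.exp 1)⁻¹ • z)) := shell_le hMSR h1m _
    _ = ENNReal.ofReal (x ^ k1) * ENNReal.ofReal ((t * Real.exp 1) ^ (m ^ 2) * I) := by
        rw [hI, ← dcf_smul m hE, ← lintegral_const_mul' _ _ ENNReal.ofReal_ne_top]
        refine lintegral_congr fun z => ?_
        rw [ENNReal.ofReal_mul (by positivity)]
    _ = ENNReal.ofReal (x ^ k1 * ((t * Real.exp 1) ^ (m ^ 2) * I)) :=
        (ENNReal.ofReal_mul (by positivity)).symm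
    _ ≤ _ := by
        apply ENNReal.ofReal_le_ofReal
        have h1 : x ^ k1 ≤ (Real.exp 1 / c0) ^ (K - (m : ℝ) ^ 2) * t ^ (K - (m : ℝ) ^ 2) := by
          rw [← Real.mul_rpow (by positivity) ht.le, ← Real.rpow_natCast]
          refine (Real.rpow_le_rpow_of_exponent_ge hx0 hx1 hk1).trans ?_
          apply Real.rpow_le_rpow hx0.le _ (by linarith)
          rw [hx, div_mul_eq_mul_div, mul_comm (Real.exp 1) t]
          apply div_le_div_of_nonneg_left hE.le hc0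
          linarith
        have h2 : t ^ K = t ^ (K - (m : ℝ) ^ 2) * t ^ (m ^ 2) := by
          rw [← Real.rpow_natCast t (m ^ 2), ← Real.rpow_add ht]
          congr 1
          push_cast
          ring
        have h3 : 0 ≤ t ^ K := by positivity
        calc x ^ k1 * ((t * Real.exp 1) ^ (m ^ 2) * I)
            ≤ (Real.exp 1 / c0) ^ (K - (m : ℝ) ^ 2) * t ^ (K - (m : ℝ) ^ 2) *
              ((t * Real.exp 1) ^ (m ^ 2) * I) :=
              mul_le_mul_of_nonneg_right h1 (by positivity)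
          _ = (Real.exp 1 / c0) ^ (K - (m : ℝ) ^ 2) * Real.exp 1 ^ (m ^ 2) * I * t ^ K := by
              rw [h2, mul_pow]; ring
          _ ≤ _ := by nlinarith

end Pool.Agent.H1.GZ
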