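import Pool.Agent.H1.GZ.Sh

/-!
Bounds for the power function on the shell.
-/

set_option autoImplicit false

namespace Pool.Agent.H1.GZ

open MeasureTheory Pool.Agent.H34.GM Pool.Agent.H34.GZ Pool.Agent.H17.GM

/-- the last step of the Gram-Schmidt process -/
lemma det_succ_le {j : ℕ} {Q : Matrix (Fin (j + 1)) (Fin (j + 1)) ℝ} (hQ : Q.PosDef) :
    Q.det ≤ Q (Fin.last j) (Fin.last j) * (Q.submatrix Fin.castSucc Fin.castSucc).det := by
  obtain ⟨e, he⟩ : ∃ e : Fin j ⊕ Fin 1 ≃ Fin (j + 1), e = finSumFinEquiv := ⟨_, rfl⟩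
  obtain ⟨M, hM⟩ : ∃ M : Matrix (Fin j ⊕ Fin 1) (Fin j ⊕ Fin 1) ℝ, M = Q.submatrix e e :=
    ⟨_, rfl⟩
  have hMd : M.det = Q.det := by rw [hM, Matrix.det_submatrix_equiv_self]
  have hMp : M.PosDef := by rw [hM]; exact hQ.submatrix e.injective
  have hA : M.toBlocks₁₁.PosDef := hMp.submatrix Sum.inl_injective
  have e1 : M.toBlocks₁₁ = Q.submatrix Fin.castSucc Fin.castSucc := by
    rw [hM, he]
    rfl
  have hdA : 0 < M.toBlocks₁₁.det := hA.det_pos
  have : Invertible M.toBlocks₁₁ :=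
    Matrix.invertibleOfIsUnitDet _ (isUnit_iff_ne_zero.2 hdA.ne')
  have h1 : M.det = M.toBlocks₁₁.det *
      (M.toBlocks₂₂ - M.toBlocks₂₁ * ⅟M.toBlocks₁₁ * M.toBlocks₁₂).det := by
    conv_lhs => rw [← Matrix.fromBlocks_toBlocks M]
    exact Matrix.det_fromBlocks₁₁ _ _ _ _
  have h2 : M.toBlocks₁₂ = M.toBlocks₂₁.conjTranspose := by
    ext i k
    have := hMp.isHermitian.apply (Sum.inl i) (Sum.inr k)
    simp only [Matrix.toBlocks₁₂, Matrix.toBlocks₂₁, Matrix.conjTranspose_apply, Matrix.of_apply]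
    exact this.symm
  have h3 : 0 ≤ (M.toBlocks₂₁ * ⅟M.toBlocks₁₁ * M.toBlocks₁₂) 0 0 := by
    rw [h2, Matrix.invOf_eq_nonsing_inv]
    exact (hA.inv.posSemidef.mul_mul_conjTranspose_same M.toBlocks₂₁).diag_nonneg
  have h4 : M.toBlocks₂₂ 0 0 = Q (Fin.last j) (Fin.last j) := by
    rw [hM, he]
    rfl
  rw [Matrix.det_fin_one, Matrix.sub_apply, h4] at h1
  rw [← hMd, h1, ← e1, mul_comm]
  apply mul_le_mul_of_nonneg_right _ hdA.le
  linarith

lemma gram_posDef {m : ℕ} {z : Mat m} (hz : z.det ≠ 0) : (z.transpose * z).PosDef := by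
  have hinj : Function.Injective z.mulVec :=
    Matrix.mulVec_injective_iff_isUnit.mpr ((Matrix.isUnit_iff_isUnit_det z).mpr hz.isUnit)
  have h2 := Matrix.PosDef.conjTranspose_mul_self z hinj
  rwa [Matrix.conjTranspose_eq_transpose_of_trivial] at h2

lemma mnr_pos {m : ℕ} {z : Mat m} (hz : z.det ≠ 0) {j : ℕ} (hj : j ≤ m) : 0 < mnr z j := by
  unfold mnr
  rw [dif_pos hj]
  exact ((gram_posDef hz).submatrix (Fin.castLE_injective hj)).det_pos

lemma mnr_zero {m : ℕ} (z : Mat m) : mnr z 0 = 1 := by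
  unfold mnr
  rw [dif_pos (Nat.zero_le m)]
  exact Matrix.det_isEmpty

lemma mnr_last {m : ℕ} (z : Mat m) : mnr z m = z.det ^ 2 := by
  unfold mnr
  rw [dif_pos le_rfl]
  have : (Fin.castLE (le_refl m)) = id := by
    ext i
    simp
  rw [this, Matrix.submatrix_id_id, Matrix.det_mul, Matrix.det_transpose, sq]

/-- the number `Q` -/
noncomputable def qz {m : ℕ} (z : Mat m) : ℝ := m * (1 + sz z) ^ 2

lemma mnr_succ {m : ℕ} {z : Mat m} (hz : z.det ≠ 0) {j : ℕ} (hj : j + 1 ≤ m) :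
    mnr z (j + 1) ≤ qz z * mnr z j := by
  have hp := mnr_pos hz (le_trans (Nat.le_succ j) hj)
  have h1 := det_succ_le ((gram_posDef hz).submatrix (Fin.castLE_injective hj))
  have e1 : mnr z (j + 1) = ((z.transpose * z).submatrix (Fin.castLE hj) (Fin.castLE hj)).det := by
    unfold mnr
    rw [dif_pos hj]
  have e2 : mnr z j = (((z.transpose * z).submatrix (Fin.castLE hj)
      (Fin.castLE hj)).submatrix Fin.castSucc Fin.castSucc).det := by
    unfold mnr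
    rw [dif_pos (le_trans (Nat.le_succ j) hj)]
    rfl
  rw [← e1, ← e2] at h1
  refine h1.trans ?_
  apply mul_le_mul_of_nonneg_right _ hp.le
  rw [Matrix.submatrix_apply, Matrix.mul_apply]
  unfold qz
  have h2 : ∀ k ∈ Finset.univ, z.transpose (Fin.castLE hj (Fin.last j)) k *
      z k (Fin.castLE hj (Fin.last j)) ≤ (1 + sz z) ^ 2 := by
    intro k _
    rw [Matrix.transpose_apply, ← sq]
    have h3 := gb_entry z k (Fin.castLE hj (Fin.last j))
    rw [← sq_abs]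
    have h4 := abs_nonneg (z k (Fin.castLE hj (Fin.last j)))
    nlinarith
  refine (Finset.sum_le_sum h2).trans ?_
  simp

lemma qz_one {m : ℕ} (h1m : 1 ≤ m) (z : Mat m) : 1 ≤ qz z := by
  unfold qz
  have h1 : (1 : ℝ) ≤ m := by exact_mod_cast h1m
  have h2 := gb_sz_nonneg z
  nlinarith

lemma mnr_up {m : ℕ} (h1m : 1 ≤ m) {z : Mat m} (hz : z.det ≠ 0) {j : ℕ} (hj : j ≤ m) :
    mnr z j ≤ qz z ^ j := by
  induction j with
  | zero => rw [mnr_zero, pow_zero]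
  | succ j ih =>
    have h1 := ih (by omega)
    have h2 := qz_one h1m z
    calc mnr z (j + 1) ≤ qz z * mnr z j := mnr_succ hz hj
      _ ≤ qz z * qz z ^ j := by gcongr
      _ = qz z ^ (j + 1) := by ring

lemma mnr_lo {m : ℕ} (h1m : 1 ≤ m) {z : Mat m} (hz : 1 ≤ |z.det|) (i : ℕ) :
    ∀ j : ℕ, j + i = m → 1 ≤ qz z ^ i * mnr z j := by
  have hz0 : z.det ≠ 0 := by
    intro h
    rw [h, abs_zero] at hz
    linarith
  have h2 := qz_one h1m z
  induction i with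
  | zero =>
    intro j hj
    rw [add_zero] at hj
    rw [hj, mnr_last, pow_zero, one_mul, ← sq_abs]
    nlinarith
  | succ i ih =>
    intro j hj
    have h1 := ih (j + 1) (by omega)
    have h3 := mnr_succ hz0 (j := j) (by omega)
    calc (1 : ℝ) ≤ qz z ^ i * mnr z (j + 1) := h1
      _ ≤ qz z ^ i * (qz z * mnr z j) := by gcongr
      _ = qz z ^ (i + 1) * mnr z j := by ring

/-- the ratios -/
lemma mnr_ratio {m : ℕ} (h1m : 1 ≤ m) {z : Mat m} (hz : 1 ≤ |z.det|) (j : Fin m) :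
    (qz z ^ m)⁻¹ ≤ mnr z ((j : ℕ) + 1) / mnr z (j : ℕ) ∧
      mnr z ((j : ℕ) + 1) / mnr z (j : ℕ) ≤ qz z ^ m := by
  have hz0 : z.det ≠ 0 := by
    intro h
    rw [h, abs_zero] at hz
    linarith
  have h2 := qz_one h1m z
  have hp := mnr_pos hz0 j.2.le
  have hp1 := mnr_pos hz0 (j := (j : ℕ) + 1) j.2
  constructor
  · rw [le_div_iff₀ hp, inv_mul_le_iff₀ (by positivity)]
    have h3 := mnr_up h1m hz0 j.2.le
    have h4 := mnr_lo h1m hz (m - 1 - j) (j + 1) (by omega)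
    have h5 : m = (j : ℕ) + 1 + (m - 1 - j) := by omega
    calc mnr z (j : ℕ) ≤ qz z ^ (j : ℕ) * 1 := by rw [mul_one]; exact h3
      _ ≤ qz z ^ (j : ℕ) * (qz z ^ (m - 1 - (j : ℕ)) * mnr z ((j : ℕ) + 1)) := by gcongr
      _ = qz z ^ ((j : ℕ) + (m - 1 - (j : ℕ))) * mnr z ((j : ℕ) + 1) := by ring
      _ ≤ qz z ^ m * mnr z ((j : ℕ) + 1) := by
        apply mul_le_mul_of_nonneg_right _ hp1.le
        exact pow_le_pow_right₀ h2 (by omega)
  · rw [div_le_iff₀ hp]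
    refine (mnr_succ hz0 j.2).trans ?_
    apply mul_le_mul_of_nonneg_right _ hp.le
    exact le_self_pow₀ h2 (by omega)

/-- the power function grows at most polynomially -/
lemma pw_bound {m : ℕ} (h1m : 1 ≤ m) (mu : Fin m → ℂ) : ∃ (C : ℝ) (A : ℕ), 0 < C ∧
    ∀ z : Mat m, 1 ≤ |z.det| → ‖pw mu z‖ ≤ C * (1 + sz z) ^ A := by
  obtain ⟨w, hw⟩ : ∃ w : Fin m → ℂ,
      w = fun j => (-(mu j) + (2 * ((j : ℕ) + 1 : ℂ) - m - 1) / 2) / 2 := ⟨_, rfl⟩
  obtain ⟨B, hB⟩ := exists_nat_ge (∑ j, |(w j).re|)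
  have hm0 : (0 : ℝ) < m := by exact_mod_cast h1m
  refine ⟨((m : ℝ) ^ m) ^ B, 2 * m * B, by positivity, ?_⟩
  intro z hz
  have hz0 : z.det ≠ 0 := by
    intro h
    rw [h, abs_zero] at hz
    linarith
  have h2 := qz_one h1m z
  have hL : 1 ≤ qz z ^ m := one_le_pow₀ h2
  have h3 : ‖pw mu z‖ ≤ ∏ j : Fin m, (qz z ^ m) ^ |(w j).re| := by
    unfold pw
    rw [norm_prod]
    apply Finset.prod_le_prod (fun _ _ => norm_nonneg _)
    intro j _
    have hx : 0 < mnr z ((j : ℕ) + 1) / mnr z (j : ℕ) :=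
      div_pos (mnr_pos hz0 j.2) (mnr_pos hz0 j.2.le)
    have e : ‖((mnr z ((j : ℕ) + 1) / mnr z (j : ℕ) : ℝ) : ℂ) ^
        ((-(mu j) + (2 * ((j : ℕ) + 1 : ℂ) - m - 1) / 2) / 2)‖ =
        (mnr z ((j : ℕ) + 1) / mnr z (j : ℕ)) ^ (w j).re := by
      rw [Complex.norm_cpow_eq_rpow_re_of_pos hx, hw]
    rw [e]
    obtain ⟨h4, h5⟩ := mnr_ratio h1m hz j
    rcases le_total 0 (w j).re with h6 | h6
    · rw [abs_of_nonneg h6]
      exact Real.rpow_le_rpow hx.le h5 h6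
    · rw [abs_of_nonpos h6]
      calc (mnr z ((j : ℕ) + 1) / mnr z (j : ℕ)) ^ (w j).re ≤ ((qz z ^ m)⁻¹) ^ (w j).re :=
            Real.rpow_le_rpow_of_nonpos (by positivity) h4 h6
        _ = (qz z ^ m) ^ (-(w j).re) := by
            rw [Real.inv_rpow (by positivity), ← Real.rpow_neg (by positivity)]
  refine h3.trans ?_
  have h0 : 0 ≤ sz z := gb_sz_nonneg z
  calc ∏ j : Fin m, (qz z ^ m) ^ |(w j).re| = (qz z ^ m) ^ (∑ j, |(w j).re|) :=
        (Real.rpow_sum_of_pos (by positivity) _ _).symm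
    _ ≤ (qz z ^ m) ^ (B : ℝ) := Real.rpow_le_rpow_of_exponent_le hL hB
    _ = ((m : ℝ) ^ m) ^ B * (1 + sz z) ^ (2 * m * B) := by
        rw [Real.rpow_natCast]
        unfold qz
        rw [mul_pow, mul_pow, ← pow_mul (1 + sz z), ← pow_mul (1 + sz z)]

end Pool.Agent.H1.GZ
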