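import Pool.Agent.H1.GZ.Mnr
import Pool.Agent.H34.GM.TH1

/-!
Row THW of the board gz: weak bound for the local transform of a decaying function.
-/

set_option autoImplicit false

namespace Pool.Agent.H1.GZ

open MeasureTheory Pool.Agent.H34.GM Pool.Agent.H34.GZ Pool.Agent.H17.GM

/-- the decay of `Ψ`, any `r` -/
lemma thw_any {n w r : ℝ} {N : ℕ} (hn : 0 ≤ n) (hr : 0 < r) (hw : (r * Real.exp 1)⁻¹ * n ≤ w) :
    (1 + w) ^ (-(N : ℝ)) ≤ (max 1 (r * Real.exp 1)) ^ N * (1 + n) ^ (-(N : ℝ)) := by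
  have hE : 0 < r * Real.exp 1 := by positivity
  obtain ⟨ρ, hρ⟩ : ∃ ρ, ρ = max 1 (r * Real.exp 1) := ⟨_, rfl⟩
  rw [← hρ]
  have hρ1 : 1 ≤ ρ := by rw [hρ]; exact le_max_left _ _
  have hρE : r * Real.exp 1 ≤ ρ := by rw [hρ]; exact le_max_right _ _
  have hρ0 : 0 < ρ := lt_of_lt_of_le one_pos hρ1
  have h1 : ρ⁻¹ * (1 + n) ≤ 1 + w := by
    have h2 : ρ⁻¹ ≤ 1 := inv_le_one_of_one_le₀ hρ1
    have h3 : ρ⁻¹ * n ≤ (r * Real.exp 1)⁻¹ * n :=
      mul_le_mul_of_nonneg_right (inv_anti₀ hE hρE) hn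
    rw [mul_add, mul_one]
    linarith
  have h4 : (1 + w) ^ (-(N : ℝ)) ≤ (ρ⁻¹ * (1 + n)) ^ (-(N : ℝ)) :=
    Real.rpow_le_rpow_of_nonpos (by positivity) h1 (by
      have : (0 : ℝ) ≤ (N : ℝ) := Nat.cast_nonneg _
      linarith)
  refine h4.trans (le_of_eq ?_)
  rw [Real.mul_rpow (by positivity) (by positivity), Real.inv_rpow hρ0.le,
    Real.rpow_neg hρ0.le, inv_inv, Real.rpow_natCast]

/-- the decay of `Ψ`, small `r` -/
lemma thw_small {c0 n w r : ℝ} {L K : ℕ} (hc0 : 0 < c0) (hn : c0 ≤ n) (hr : 0 < r) (hr1 : r ≤ 1)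
    (hw : (r * Real.exp 1)⁻¹ * n ≤ w) :
    (1 + w) ^ (-((L + K : ℕ) : ℝ)) ≤
      (Real.exp 1 / c0) ^ K * r ^ K * (Real.exp 1 ^ L * (1 + n) ^ (-(L : ℝ))) := by
  have hn0 : 0 < n := hc0.trans_le hn
  have hE : 0 < r * Real.exp 1 := by positivity
  have hw0 : 0 < w := lt_of_lt_of_le (mul_pos (inv_pos.2 hE) hn0) hw
  have h2 : (-((L + K : ℕ) : ℝ)) = -(K : ℝ) + -(L : ℝ) := by push_cast; ring
  rw [h2, Real.rpow_add (by linarith)]
  have hw' : ((1 : ℝ) * Real.exp 1)⁻¹ * n ≤ w := by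
    refine le_trans ?_ hw
    apply mul_le_mul_of_nonneg_right _ hn0.le
    exact inv_anti₀ hE (mul_le_mul_of_nonneg_right hr1 (Real.exp_pos 1).le)
  have h3 : (1 + w) ^ (-(L : ℝ)) ≤ Real.exp 1 ^ L * (1 + n) ^ (-(L : ℝ)) := by
    have h4 := thw_any (N := L) hn0.le one_pos hw'
    have h5 : max 1 (1 * Real.exp 1) = Real.exp 1 := by
      rw [one_mul]
      exact max_eq_right (Real.one_le_exp zero_le_one)
    rwa [h5] at h4
  have h6 : (1 + w) ^ (-(K : ℝ)) ≤ (Real.exp 1 / c0) ^ K * r ^ K := by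
    rw [← mul_pow, Real.rpow_neg (by linarith), Real.rpow_natCast, ← inv_pow]
    apply pow_le_pow_left₀ (by positivity)
    rw [inv_le_comm₀ (by linarith) (by positivity)]
    have h7 : (Real.exp 1 / c0 * r)⁻¹ = (r * Real.exp 1)⁻¹ * c0 := by
      field_simp
    rw [h7]
    have h8 : (r * Real.exp 1)⁻¹ * c0 ≤ (r * Real.exp 1)⁻¹ * n := by gcongr
    linarith
  exact mul_le_mul h6 h3 (by positivity) (by positivity)

/-- THW -/
theorem pf_THW : T_MSR → T_HAR → T_PWC → T_THW := by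
  intro hMSR _ hPWC m h1m mu K _
  obtain ⟨Cp, A, hCp, hpw⟩ := pw_bound h1m mu
  obtain ⟨I, hI⟩ : ∃ I : ℝ, I = ∫ z, dcf m z := ⟨_, rfl⟩
  have hI0 : 0 ≤ I := by rw [hI]; exact dcf_int_nonneg m
  obtain ⟨c0, hc⟩ : ∃ c0 : ℝ, c0 = 1 / (m.factorial : ℝ) := ⟨_, rfl⟩
  have hc0 : 0 < c0 := by
    rw [hc]
    have : (0 : ℝ) < m.factorial := by exact_mod_cast m.factorial_pos
    positivity
  obtain ⟨-, -, -, -, -, a6, -, -⟩ := hMSR.1 m
  refine ⟨m ^ 2 + 1 + A + K, ?_⟩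
  intro M hM
  refine ⟨M * ((Real.exp 1 / c0) ^ K * Real.exp 1 ^ (m ^ 2 + 1 + A)) * Cp * I, by positivity, ?_⟩
  intro Ψ hΨ hdec r hr
  -- the general bound
  have key : ∀ B : ℝ, 0 ≤ B → (∀ z ∈ Shell m, (1 + sz ((r⁻¹ * (aN (mt z))⁻¹) • mt z)) ^
      (-((m ^ 2 + 1 + A + K : ℕ) : ℝ)) ≤ B * (1 + ‖z‖) ^ (-((m ^ 2 + 1 + A : ℕ) : ℝ))) →
      ∫⁻ z in Shell m, ENNReal.ofReal ‖Ψ ((r⁻¹ * (aN (mt z))⁻¹) • mt z) * pw mu (mt z)‖
        ∂(hm m) ≤ ENNReal.ofReal (M * B * Cp * I) := by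
    intro B hB hb
    calc _ ≤ ∫⁻ z in Shell m, ENNReal.ofReal (M * B * Cp * dcf m z) ∂(hm m) := by
          refine setLIntegral_mono' a6 fun z hz => ?_
          apply ENNReal.ofReal_le_ofReal
          rw [norm_mul]
          have h1 := hdec ((r⁻¹ * (aN (mt z))⁻¹) • mt z)
          have h2 := mul_le_mul_of_nonneg_left (hb z hz) hM
          have h3 := hpw (mt z) (gb_one_le_det h1m hz.1)
          have e0 : sz (mt z) = ‖z‖ := rfl
          rw [e0] at h3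
          have h4 : (1 + ‖z‖) ^ (-((m ^ 2 + 1 + A : ℕ) : ℝ)) * (1 + ‖z‖) ^ A = dcf m z := by
            unfold dcf
            rw [← Real.rpow_natCast (1 + ‖z‖) A, ← Real.rpow_add (by positivity)]
            congr 1
            push_cast
            ring
          calc _ ≤ (M * (B * (1 + ‖z‖) ^ (-((m ^ 2 + 1 + A : ℕ) : ℝ)))) *
                (Cp * (1 + ‖z‖) ^ A) :=
                mul_le_mul (h1.trans h2) h3 (norm_nonneg _) (by positivity)
            _ = M * B * Cp * ((1 + ‖z‖) ^ (-((m ^ 2 + 1 + A : ℕ) : ℝ)) * (1 + ‖z‖) ^ A) := by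
                ring
            _ = _ := by rw [h4]
      _ ≤ ∫⁻ z, ENNReal.ofReal (M * B * Cp * dcf m z) := shell_le hMSR h1m _
      _ = ENNReal.ofReal (M * B * Cp) * ENNReal.ofReal I := by
          rw [hI, ← dcf_lint m, ← lintegral_const_mul' _ _ ENNReal.ofReal_ne_top]
          refine lintegral_congr fun z => ?_
          rw [ENNReal.ofReal_mul (by positivity)]
      _ = _ := (ENNReal.ofReal_mul (by positivity)).symm
  constructor
  · refine ⟨((th1_meas hMSR hΨ r⁻¹).aestronglyMeasurable).mul (th1_pwmeas hPWC h1m mu a6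
      fun z hz => th1_det_ne h1m hz), ?_⟩
    rw [hasFiniteIntegral_iff_norm]
    refine lt_of_le_of_lt (key ((max 1 (r * Real.exp 1)) ^ (m ^ 2 + 1 + A + K)) (by positivity)
      fun z hz => ?_) ENNReal.ofReal_lt_top
    refine (thw_any (N := m ^ 2 + 1 + A + K) (norm_nonneg z) hr (shell_sz hz hr)).trans ?_
    apply mul_le_mul_of_nonneg_left _ (by positivity)
    apply Real.rpow_le_rpow_of_exponent_le
    · have := norm_nonneg z
      linarith
    · rw [neg_le_neg_iff]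
      exact_mod_cast Nat.le_add_right _ _
  · intro hr1
    refine (key ((Real.exp 1 / c0) ^ K * Real.exp 1 ^ (m ^ 2 + 1 + A) * r ^ K) (by positivity)
      fun z hz => ?_).trans (le_of_eq ?_)
    · have h1 := thw_small (L := m ^ 2 + 1 + A) (K := K) hc0 (hc ▸ shell_low h1m hz) hr hr1
        (shell_sz hz hr)
      refine h1.trans (le_of_eq ?_)
      ring
    · congr 1
      ring

end Pool.Agent.H1.GZ
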